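import Mathlib

namespace Pool.Agent.MP_114209_co.H87

/-- `D` contains a subdivision of `F`: distinct branch vertices `f a`, and for every arc `(a, b)` of
`F` a directed path of `D` from `f a` to `f b` with list of internal vertices `P a b`; internal
vertices are pairwise distinct and are not branch vertices. -/
def HasSubdivision {V W : Type} (F : Digraph V) (D : Digraph W) : Prop :=
  ∃ (f : V → W) (P : V → V → List W), Function.Injective f ∧
    (∀ a b, F.Adj a b → List.IsChain D.Adj (f a :: (P a b ++ [f b])) ∧ (P a b).Nodup ∧
      ∀ v, f v ∉ P a b) ∧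
    ∀ a b c d, F.Adj a b → F.Adj c d → (a, b) ≠ (c, d) → List.Disjoint (P a b) (P c d)

/-- every finite nonempty loopless digraph of large enough minimum out-degree contains a
subdivision of `F` -/
def Maderian {V : Type} (F : Digraph V) : Prop :=
  ∃ k : ℕ, ∀ (W : Type) [Fintype W] [Nonempty W] (D : Digraph W), (∀ w, ¬ D.Adj w w) →
    (∀ w, k ≤ Nat.card {x // D.Adj w x}) → HasSubdivision F D

end Pool.Agent.MP_114209_co.H87
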